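import Pool.Agent.H740R3.BQStmts

/-! Project H740-BQ, task T13: the initial state. -/

set_option autoImplicit false

namespace Pool.Agent.H545R3.BQ

open Pool.Agent.H740R3.BQ

universe u

theorem t13 : T13.{u} := by
  intro X _ _ e g hbio
  have h00 : g 0 (e 0) = 1 := by simpa using hbio 0 0
  have hP : ∀ f, PN e g 1 f = g 0 f • e 0 := by
    intro f
    simp [PN]
  refine ⟨(g 0).smulRight (g 0), le_refl _, ?_, ?_, ?_, ?_, ?_, ?_, ?_, ?_⟩
  · intro f
    simp
  · intro f
    simp
  · simp
  · intro f hf
    rw [hP] at hf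
    refine ⟨fun k => if k = 0 then g 0 f else 0, ?_, ?_⟩
    · intro k hk
      have : k ≠ 0 := by omega
      simp [this]
    · simp [hf]
  · intro u v
    simp [mul_comm]
  · intro u v
    rw [hP]
    simp [h00]
  · intro u v
    simp
  · simp [h00]

end Pool.Agent.H545R3.BQ
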